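import Pool.Agent.Zk23.AKDefs
import Pool.Agent.Zk23.AKDefs3

/-!
# The conjecture with projections and the conjecture with progressions are equivalent
-/

set_option autoImplicit false

namespace Pool.Agent.Zk77.AKM3

open Pool.Agent.Zk23.AKDefs Pool.Agent.Zk23.AKAP

theorem card_factor {α β γ : Type} [Nonempty α] [DecidableEq β] [DecidableEq γ] (A : Finset α) (f : α → β)
    (g : α → γ) (H : ∀ a b, g a = g b → f a = f b) : (A.image f).card ≤ (A.image g).card := by
  have : ∀ b : β, b ∈ A.image f → ∃ a ∈ A, f a = b := fun b hb => Finset.mem_image.mp hb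
  choose! a ha hfa using this
  refine Finset.card_le_card_of_injOn (fun b => g (a b))
    (fun b hb => Finset.mem_image_of_mem g (ha b hb)) (fun b hb b' hb' h => ?_)
  rw [← hfa b hb, ← hfa b' hb']
  exact H _ _ h

theorem of_progressions (κ : ℝ) (hκ : 0 ≤ κ) (k : ℕ) (h : APBound k κ) :
    ∃ S : Finset ℚ, (-1 : ℚ) ∉ S ∧ Bound S κ := by
  refine ⟨((Finset.range k).filter (fun j => j ≠ 0)).image (fun j : ℕ => 1 / (j : ℚ) - 1), ?_, ?_⟩
  · intro hm
    obtain ⟨j, hj, he⟩ := Finset.mem_image.mp hm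
    have h0 : (j : ℚ) ≠ 0 := by exact_mod_cast (Finset.mem_filter.mp hj).2
    have : 1 / (j : ℚ) = 0 := by linarith
    exact (one_div_ne_zero h0) this
  · intro A
    have h1 := h (A.image fun p => (p.2, p.1 - p.2))
    have e1 : (A.image (pr (some (-1)))).card ≤
        ((A.image fun p => (p.2, p.1 - p.2)).image Prod.snd).card := by
      rw [Finset.image_image]
      refine card_factor A _ _ fun a b hab => ?_
      simp only [Function.comp] at hab
      have : ((a.1 - a.2 : ℤ) : ℚ) = ((b.1 - b.2 : ℤ) : ℚ) := by rw [hab]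
      push_cast at this
      simp only [pr]
      linarith
    have e2 : ((Finset.range k).sup fun j => ((A.image fun p => (p.2, p.1 - p.2)).image
        fun p : ℤ × ℤ => p.1 + (j : ℤ) * p.2).card) ≤
        big (((Finset.range k).filter (fun j => j ≠ 0)).image (fun j : ℕ => 1 / (j : ℚ) - 1)) A := by
      refine Finset.sup_le fun j hj => ?_
      rw [Finset.image_image]
      by_cases h0 : j = 0
      · refine le_trans ?_ (le_max_left _ _)
        refine card_factor A _ _ fun a b hab => ?_
        simp only [pr] at hab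
        have : a.2 = b.2 := by exact_mod_cast hab
        simp only [Function.comp, h0]
        push_cast
        linarith
      · have hr : (1 / (j : ℚ) - 1) ∈
            ((Finset.range k).filter (fun j => j ≠ 0)).image (fun j : ℕ => 1 / (j : ℚ) - 1) :=
          Finset.mem_image_of_mem _ (Finset.mem_filter.mpr ⟨hj, h0⟩)
        refine le_trans ?_ (le_max_right _ _)
        refine le_trans ?_ (Finset.le_sup (f := fun r => (A.image (pr (some r))).card) hr)
        refine card_factor A _ _ fun a b hab => ?_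
        simp only [pr] at hab
        have hj0 : (j : ℚ) ≠ 0 := by exact_mod_cast h0
        have key : ∀ x y : ℚ, y + j * (x - y) = j * (x + (1 / (j : ℚ) - 1) * y) := by
          intro x y
          field_simp
          ring
        have : ((a.2 + (j : ℤ) * (a.1 - a.2) : ℤ) : ℚ) = ((b.2 + (j : ℤ) * (b.1 - b.2) : ℤ) : ℚ) := by
          push_cast
          rw [key, key, hab]
        exact_mod_cast this
    calc ((A.image (pr (some (-1)))).card : ℝ) ≤
        (((A.image fun p => (p.2, p.1 - p.2)).image Prod.snd).card : ℝ) := by exact_mod_cast e1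
      _ ≤ _ := h1
      _ ≤ _ := Real.rpow_le_rpow (Nat.cast_nonneg _) (by exact_mod_cast e2) hκ

theorem to_progressions (κ : ℝ) (hκ : 0 ≤ κ) (S : Finset ℚ) (hS : (-1 : ℚ) ∉ S)
    (h : Bound S κ) : ∃ k : ℕ, APBound k κ := by
  have hne : ∀ r ∈ S, (1 + r : ℚ) ≠ 0 := by
    intro r hr h0
    apply hS
    have : r = -1 := by linarith
    rwa [this] at hr
  obtain ⟨N, hN0, hN⟩ : ∃ N : ℤ, N ≠ 0 ∧ ∀ r ∈ S, (1 + r : ℚ).num ∣ N :=
    ⟨∏ r ∈ S, (1 + r : ℚ).num, Finset.prod_ne_zero_iff.mpr fun r hr => Rat.num_ne_zero.mpr (hne r hr),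
      fun r hr => Finset.dvd_prod_of_mem (fun r => (1 + r : ℚ).num) hr⟩
  have he : ∀ r : ℚ, r ∈ S → ∃ e : ℤ, (N : ℚ) = (1 + r) * e := by
    intro r hr
    obtain ⟨t, ht⟩ := hN r hr
    refine ⟨(1 + r : ℚ).den * t, ?_⟩
    have hd : ((1 + r : ℚ).den : ℚ) ≠ 0 := by exact_mod_cast (1 + r : ℚ).den_ne_zero
    have := Rat.mul_den_eq_num (1 + r : ℚ)
    rw [ht]
    push_cast
    rw [← mul_assoc, this]
  choose! e he using he
  have hc : ∀ r ∈ S, (e r).natAbs ≤ ∑ r ∈ S, (e r).natAbs := fun r hr =>
    Finset.single_le_sum (f := fun r => (e r).natAbs) (fun _ _ => Nat.zero_le _) hr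
  generalize (∑ r ∈ S, (e r).natAbs) = c at hc
  refine ⟨2 * c + 1, fun A => ?_⟩
  have h1 := h (A.image fun p => (p.1 + (c : ℤ) * p.2 + N * p.2, p.1 + (c : ℤ) * p.2))
  have e1 : (A.image Prod.snd).card ≤
      ((A.image fun p => (p.1 + (c : ℤ) * p.2 + N * p.2, p.1 + (c : ℤ) * p.2)).image (pr (some (-1)))).card := by
    rw [Finset.image_image]
    refine card_factor A _ _ fun a b hab => ?_
    simp only [Function.comp, pr] at hab
    have : (N : ℚ) * a.2 = N * b.2 := by
      push_cast at hab
      linarith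
    have h2 : N * a.2 = N * b.2 := by exact_mod_cast this
    exact mul_left_cancel₀ hN0 h2
  have e2 : big S (A.image fun p => (p.1 + (c : ℤ) * p.2 + N * p.2, p.1 + (c : ℤ) * p.2)) ≤
      (Finset.range (2 * c + 1)).sup fun j => (A.image fun p => p.1 + (j : ℤ) * p.2).card := by
    refine max_le ?_ (Finset.sup_le fun r hr => ?_)
    · refine le_trans ?_ (Finset.le_sup (f := fun j : ℕ => (A.image fun p => p.1 + (j : ℤ) * p.2).card)
        (Finset.mem_range.mpr (show c < 2 * c + 1 by omega)))
      rw [Finset.image_image]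
      refine card_factor A _ _ fun a b hab => ?_
      simp only [Function.comp, pr]
      rw [hab]
    · obtain ⟨j, hj⟩ : ∃ j : ℕ, (j : ℤ) = c + e r := by
        refine ⟨((c : ℤ) + e r).toNat, ?_⟩
        rw [Int.toNat_of_nonneg]
        have := hc r hr
        omega
      refine le_trans ?_ (Finset.le_sup (f := fun j : ℕ => (A.image fun p => p.1 + (j : ℤ) * p.2).card)
        (Finset.mem_range.mpr (show j < 2 * c + 1 by have := hc r hr; omega)))
      rw [Finset.image_image]
      refine card_factor A _ _ fun a b hab => ?_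
      have key : ∀ p : ℤ × ℤ, pr (some r) (p.1 + (c : ℤ) * p.2 + N * p.2, p.1 + (c : ℤ) * p.2) =
          (1 + r) * ((p.1 + (j : ℤ) * p.2 : ℤ) : ℚ) := by
        intro p
        simp only [pr]
        rw [hj]
        push_cast
        rw [he r hr]
        ring
      simp only [Function.comp]
      rw [key, key, hab]
  calc ((A.image Prod.snd).card : ℝ) ≤
      (((A.image fun p => (p.1 + (c : ℤ) * p.2 + N * p.2, p.1 + (c : ℤ) * p.2)).image (pr (some (-1)))).card : ℝ) := by
        exact_mod_cast e1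
    _ ≤ _ := h1
    _ ≤ _ := Real.rpow_le_rpow (Nat.cast_nonneg _) (by exact_mod_cast e2) hκ

theorem bound_iff (κ : ℝ) (hκ : 0 ≤ κ) :
    (∃ S : Finset ℚ, (-1 : ℚ) ∉ S ∧ Bound S κ) ↔ ∃ k : ℕ, APBound k κ :=
  ⟨fun ⟨S, hS, h⟩ => to_progressions κ hκ S hS h, fun ⟨k, h⟩ => of_progressions κ hκ k h⟩

end Pool.Agent.Zk77.AKM3
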