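import Pool.Agent.Zk39.LC.Null
import Pool.Agent.Zk39.MC.Def

/-!
# A fibrewise linear action on rays: pairs of half spaces are null
-/

set_option autoImplicit false

open Finset

namespace Pool.Agent.Zk77.RL

open Pool.Agent.Zk39.LC Pool.Agent.Zk39.MC

theorem semi_it {X Y : Type} {S : Y → Y} {T : X → X} {π : X → Y} (h : ∀ x, π (T x) = S (π x)) (m : ℕ) (x : X) :
    π (T^[m] x) = S^[m] (π x) := by
  induction m with
  | zero => rfl
  | succ m ih => rw [Function.iterate_succ_apply', Function.iterate_succ_apply', h, ih]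

theorem lin_iter_one {X Y : Type} {S : Y → Y} {T : X → X} {π : X → Y} {n : ℕ} {Φ : X → Eu n}
    (hπT : ∀ x, π (T x) = S (π x))
    (hlin : ∀ y, ∃ g : Eu n →ₗ[ℝ] Eu n, ∀ x, π x = y → ∃ c : ℝ, 0 < c ∧ Φ (T x) = c • g (Φ x)) (m : ℕ) (y : Y) :
    ∃ g : Eu n →ₗ[ℝ] Eu n, ∀ x, π x = y → ∃ c : ℝ, 0 < c ∧ Φ (T^[m] x) = c • g (Φ x) := by
  induction m with
  | zero => exact ⟨LinearMap.id, fun x _ => ⟨1, one_pos, by simp⟩⟩
  | succ m ih =>
    obtain ⟨g, hg⟩ := ih
    obtain ⟨g', hg'⟩ := hlin (S^[m] y)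
    refine ⟨g'.comp g, fun x hx => ?_⟩
    obtain ⟨c, hc, h1⟩ := hg x hx
    obtain ⟨c', hc', h2⟩ := hg' (T^[m] x) (by rw [semi_it hπT, hx])
    refine ⟨c' * c, mul_pos hc' hc, ?_⟩
    rw [Function.iterate_succ_apply', h2, h1, map_smul, LinearMap.comp_apply, smul_smul]

/-- Two half spaces at a positive distance, pulled back by the rays `un (Φ x)`, are a null pair. -/
theorem null_real {X Y : Type} [TopologicalSpace Y] {S : Y → Y} {P : Set Y} {T : X → X} {π : X → Y} {n : ℕ}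
    {Φ : X → Pool.Agent.Zk39.LC.Eu n} (hπT : ∀ x, π (T x) = S (π x)) (h0 : ∀ x, Φ x ≠ 0)
    (hlin : ∀ y, ∃ g : Pool.Agent.Zk39.LC.Eu n →ₗ[ℝ] Pool.Agent.Zk39.LC.Eu n, ∀ x, π x = y →
      ∃ c : ℝ, 0 < c ∧ Φ (T x) = c • g (Φ x))
    (w : Pool.Agent.Zk39.LC.Eu n) (s t : ℝ) (hst : s < t) :
    NullPair S P T π {x | inner ℝ w (Pool.Agent.Zk39.LC.un (Φ x)) ≤ s}
      {x | t ≤ inner ℝ w (Pool.Agent.Zk39.LC.un (Φ x))} := by
  classical
  have hε : 0 < (t - s) / (‖w‖ + 1) := div_pos (sub_pos.2 hst) (by positivity)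
  set A : Set X := {x | inner ℝ w (un (Φ x)) ≤ s} with hA
  set B : Set X := {x | t ≤ inner ℝ w (un (Φ x))} with hB
  have hsep : ∀ a ∈ A, ∀ b ∈ B, (t - s) / (‖w‖ + 1) ≤ ‖un (Φ a) - un (Φ b)‖ := by
    intro a ha b hb
    rw [div_le_iff₀ (by positivity)]
    have h1 : inner ℝ w (un (Φ a)) ≤ s := ha
    have h2 : t ≤ inner ℝ w (un (Φ b)) := hb
    have h3 : t - s ≤ inner ℝ w (un (Φ b) - un (Φ a)) := by
      rw [inner_sub_right]
      linarith
    have h4 : inner ℝ w (un (Φ b) - un (Φ a)) ≤ ‖w‖ * ‖un (Φ b) - un (Φ a)‖ := real_inner_le_norm _ _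
    rw [norm_sub_rev] at h4
    have h5 : (0 : ℝ) ≤ ‖un (Φ a) - un (Φ b)‖ := norm_nonneg _
    nlinarith
  obtain ⟨W, hW⟩ := exists_net n hε
  set q : ℕ := Module.finrank ℝ (Eu n) with hq
  obtain ⟨k, hk⟩ := exists_large q W.card
  intro δ hδ
  refine ⟨k, Set.univ, isClosed_univ, ⟨0, fun N _ y _ => ⟨∅, fun n _ hn => absurd (Set.mem_univ _) hn, ?_⟩⟩,
    fun y _ m => ?_⟩
  · rw [card_empty, Nat.cast_zero]
    positivity
  by_contra hcon
  push Not at hcon
  choose x hxy hx using hcon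
  choose g hg using fun i => lin_iter_one hπT hlin (m i) y
  -- the sign patterns
  set I := Fin k × {w // w ∈ W} with hI
  set L : {x // π x = y} → I → Prop := fun ω p => 0 < inner ℝ p.2.1 (Φ (T^[m p.1] ω.1)) with hLdef
  set Z : (Fin k → Bool) → Finset I := fun τ => univ.filter fun p => L ⟨x τ, hxy τ⟩ p with hZ
  have hZinj : Function.Injective Z := by
    intro τ τ' hττ
    by_contra hne
    obtain ⟨i, hi⟩ := Function.ne_iff.1 hne
    have h1 := hx τ i
    have h2 := hx τ' i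
    have key : ∀ σ σ' : Fin k → Bool, Z σ = Z σ' → T^[m i] (x σ) ∈ A → T^[m i] (x σ') ∈ B → False := by
      intro σ σ' hZZ ha hb
      obtain ⟨w, hw, hw1, hw2⟩ := hW _ _ (norm_un (h0 _)) (norm_un (h0 _)) (hsep _ ha _ hb)
      rw [un_pos (h0 _)] at hw1 hw2
      have h3 : ((i, ⟨w, hw⟩) : I) ∈ Z σ := mem_filter.2 ⟨mem_univ _, hw1⟩
      rw [hZZ] at h3
      exact hw2 (mem_filter.1 h3).2
    cases hτ : τ i
    · cases hτ' : τ' i
      · exact hi (by rw [hτ, hτ'])
      · rw [hτ] at h1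
        rw [hτ'] at h2
        simp only [Bool.false_eq_true, if_false, if_true] at h1 h2
        exact key τ' τ hττ.symm h2 h1
    · cases hτ' : τ' i
      · rw [hτ] at h1
        rw [hτ'] at h2
        simp only [Bool.false_eq_true, if_false, if_true] at h1 h2
        exact key τ τ' hττ h1 h2
      · exact hi (by rw [hτ, hτ'])
  have hcard : (univ.image Z).card = 2 ^ k := by
    rw [card_image_of_injective _ hZinj, card_univ, Fintype.card_fun, Fintype.card_bool, Fintype.card_fin]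
  have hbound := pattern_card (V := Eu n) L
    (fun p => (innerₛₗ ℝ p.2.1).comp (g p.1)) (fun ω => Φ ω.1) (fun ω p => by
      obtain ⟨c, hc', h1⟩ := hg p.1 ω.1 ω.2
      rw [hLdef]
      simp only [LinearMap.comp_apply, innerₛₗ_apply_apply]
      rw [h1, real_inner_smul_right]
      constructor
      · intro h2
        exact (pos_iff_pos_of_mul_pos h2).1 hc'
      · exact fun h2 => mul_pos hc' h2) (univ.image Z) (fun u hu => by
      obtain ⟨τ, -, rfl⟩ := mem_image.1 hu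
      refine ⟨⟨x τ, hxy τ⟩, fun p => ?_⟩
      rw [hZ]
      simp only [mem_filter, mem_univ, true_and])
  rw [hcard, ← hq] at hbound
  have hIcard : Fintype.card I = k * W.card := by
    show Fintype.card (Fin k × {w // w ∈ W}) = _
    rw [Fintype.card_prod, Fintype.card_fin, Fintype.card_coe]
  rw [hIcard] at hbound
  omega

end Pool.Agent.Zk77.RL
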